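import Pool.Agent.H45.Search

set_option autoImplicit false

open Pool.Agent.H45.Search
open scoped NNReal

namespace Pool.Agent.Results.MP_61cfb3_pr.Retrace

/-- For every detection probability in `(0,1)` some admitted trajectory has guaranteed cost
strictly below `p / (2 - p) + 8 / p`. -/
theorem result (p : ℝ) (hp0 : 0 < p) (hp1 : p < 1) :
    ∃ S : ℝ≥0 → ℝ, IsTrajectory S ∧ cost p S < ENNReal.ofReal (p / (2 - p) + 8 / p) :=
  beats p hp0 hp1

end Pool.Agent.Results.MP_61cfb3_pr.Retrace
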